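import Mathlib

-- part Pool.Agent.Lib.MP_5ffd28_gt.Basic
section

set_option autoImplicit false
set_option linter.style.haveILetI false

namespace Pool.Agent.Lib.MP_5ffd28_gt

open Topology Filter Set

/-- The free abelian group topology: the finest group topology making the generators continuous. -/
@[reducible] def freeTop (X : Type) [TopologicalSpace X] : TopologicalSpace (FreeAbelianGroup X) :=
  sInf {t : TopologicalSpace (FreeAbelianGroup X) |
    @IsTopologicalAddGroup (FreeAbelianGroup X) t _ ∧
    @Continuous X (FreeAbelianGroup X) _ t FreeAbelianGroup.of}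

theorem freeTop_group (X : Type) [TopologicalSpace X] :
    @IsTopologicalAddGroup (FreeAbelianGroup X) (freeTop X) _ :=
  topologicalAddGroup_sInf fun _ ht => ht.1

theorem freeTop_of (X : Type) [TopologicalSpace X] :
    @Continuous X (FreeAbelianGroup X) _ (freeTop X) FreeAbelianGroup.of :=
  continuous_sInf_rng.2 fun _ ht => ht.2

theorem freeTop_lift {X G : Type} [TopologicalSpace X] [AddCommGroup G] [tG : TopologicalSpace G]
    [IsTopologicalAddGroup G] {φ : X → G} (hφ : Continuous φ) :
    @Continuous _ _ (freeTop X) tG (FreeAbelianGroup.lift φ) := by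
  rw [continuous_iff_le_induced]
  apply sInf_le
  refine ⟨topologicalAddGroup_induced (FreeAbelianGroup.lift φ), ?_⟩
  rw [continuous_induced_rng]
  convert hφ using 1
  ext x
  simp

/-- The conclusion of the problem for the space X. -/
def Concl (X : Type) [TopologicalSpace X] : Prop :=
  ∃ S : Set ℝ, S ⊆ Set.Icc (0 : ℝ) 1 ∧ S.Infinite ∧
    ∃ f : FreeAbelianGroup X →+ FreeAbelianGroup S,
      Function.Surjective f ∧
      @Continuous (FreeAbelianGroup X) (FreeAbelianGroup S) (freeTop X) (freeTop S) f ∧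
      @IsOpenMap (FreeAbelianGroup X) (FreeAbelianGroup S) (freeTop X) (freeTop S) f

/-- Openness criterion. -/
theorem open_of_detects {X S : Type} [TopologicalSpace X] [TopologicalSpace S]
    (φ : X → FreeAbelianGroup S)
    (hφ : @Continuous _ _ _ (freeTop S) φ)
    (hsurj : ∀ s : S, ∃ x, φ x = FreeAbelianGroup.of s)
    (hdet : ∀ t : TopologicalSpace (FreeAbelianGroup S),
      @IsTopologicalAddGroup (FreeAbelianGroup S) t _ → @Continuous _ _ _ t φ →
      @Continuous _ _ _ t (FreeAbelianGroup.of : S → FreeAbelianGroup S)) :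
    Function.Surjective (FreeAbelianGroup.lift φ) ∧
      @Continuous _ _ (freeTop X) (freeTop S) (FreeAbelianGroup.lift φ) ∧
      @IsOpenMap _ _ (freeTop X) (freeTop S) (FreeAbelianGroup.lift φ) := by
  have hs : Function.Surjective (FreeAbelianGroup.lift φ) := by
    intro y
    induction y using FreeAbelianGroup.induction_on with
    | zero => exact ⟨0, map_zero _⟩
    | of s =>
      obtain ⟨x, hx⟩ := hsurj s
      exact ⟨FreeAbelianGroup.of x, by simp [hx]⟩
    | neg s ih =>
      obtain ⟨x, hx⟩ := ih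
      exact ⟨-x, by rw [map_neg, hx]⟩
    | add a b iha ihb =>
      obtain ⟨x, hx⟩ := iha
      obtain ⟨y, hy⟩ := ihb
      exact ⟨x + y, by rw [map_add, hx, hy]⟩
  have hc : @Continuous _ _ (freeTop X) (freeTop S) (FreeAbelianGroup.lift φ) := by
    letI := freeTop S
    haveI := freeTop_group S
    exact freeTop_lift hφ
  refine ⟨hs, hc, ?_⟩
  letI tX := freeTop X
  haveI := freeTop_group X
  let tq : TopologicalSpace (FreeAbelianGroup S) :=
    TopologicalSpace.coinduced (FreeAbelianGroup.lift φ) tX
  have hq : @IsOpenQuotientMap _ _ tX tq (FreeAbelianGroup.lift φ) := by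
    letI := tq
    exact AddMonoidHom.isOpenQuotientMap_of_isQuotientMap ⟨⟨rfl⟩, hs⟩
  have hgrp : @IsTopologicalAddGroup (FreeAbelianGroup S) tq _ := by
    letI := tq
    refine { continuous_add := ?_, continuous_neg := ?_ }
    · rw [← (hq.prodMap hq).continuous_comp_iff]
      have : (fun p : FreeAbelianGroup S × FreeAbelianGroup S => p.1 + p.2) ∘
          Prod.map (FreeAbelianGroup.lift φ) (FreeAbelianGroup.lift φ) =
          (FreeAbelianGroup.lift φ) ∘ fun p => p.1 + p.2 := by
        ext p
        simp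
      rw [this]
      exact hq.continuous.comp continuous_add
    · rw [← hq.continuous_comp_iff]
      have : (fun a : FreeAbelianGroup S => -a) ∘ (FreeAbelianGroup.lift φ) =
          (FreeAbelianGroup.lift φ) ∘ fun a => -a := by
        ext p
        simp
      rw [this]
      exact hq.continuous.comp continuous_neg
  have hφq : @Continuous _ _ _ tq φ := by
    letI := tq
    have : φ = (FreeAbelianGroup.lift φ) ∘ FreeAbelianGroup.of := by
      ext x
      simp
    rw [this]
    exact hq.continuous.comp (freeTop_of X)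
  have h1 : freeTop S ≤ tq := sInf_le ⟨hgrp, hdet tq hgrp hφq⟩
  have h2 : tq ≤ freeTop S := continuous_iff_coinduced_le.mp hc
  have h3 : freeTop S = tq := le_antisymm h1 h2
  rw [h3]
  exact hq.isOpenMap

/-- A map onto S which detects continuity of maps into topological groups. -/
theorem concl_of_map {X : Type} [TopologicalSpace X] (S : Set ℝ) (hS : S ⊆ Set.Icc (0 : ℝ) 1)
    (hinf : S.Infinite) (f : X → S) (hf : Continuous f) (hsurj : Function.Surjective f)
    (hdet : ∀ (G : Type) [AddCommGroup G] [TopologicalSpace G] [IsTopologicalAddGroup G]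
      (g : S → G), Continuous (g ∘ f) → Continuous g) : Concl X := by
  refine ⟨S, hS, hinf, FreeAbelianGroup.lift (fun x => FreeAbelianGroup.of (f x)), ?_⟩
  apply open_of_detects
  · letI := freeTop S
    exact (freeTop_of S).comp hf
  · intro s
    obtain ⟨x, hx⟩ := hsurj s
    exact ⟨x, by rw [hx]⟩
  · intro t ht hc
    exact @hdet _ _ t ht FreeAbelianGroup.of hc

/-- If g tends to g s along the dense set Q at every point s, then g is continuous. -/
theorem continuous_of_dense_tendsto {S G : Type} [TopologicalSpace S] [TopologicalSpace G]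
    [RegularSpace G] {Q : Set S} (hQ : Dense Q) {g : S → G}
    (h : ∀ s, Tendsto g (𝓝[Q] s) (𝓝 (g s))) : Continuous g := by
  rw [continuous_iff_continuousAt]
  intro s
  rw [ContinuousAt, (closed_nhds_basis (g s)).tendsto_right_iff]
  rintro V ⟨hV, hVc⟩
  have h1 : g ⁻¹' V ∈ 𝓝[Q] s := h s hV
  rw [mem_nhdsWithin] at h1
  obtain ⟨W, hWo, hsW, hW⟩ := h1
  filter_upwards [hWo.mem_nhds hsW] with s' hs'
  have hne : (𝓝[Q] s').NeBot := mem_closure_iff_nhdsWithin_neBot.mp (hQ s')
  apply hVc.mem_of_tendsto (h s')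
  filter_upwards [self_mem_nhdsWithin, mem_nhdsWithin_of_mem_nhds (hWo.mem_nhds hs')] with q hq hqW
  exact hW ⟨hqW, hq⟩

/-- Sequential criterion for a map onto a subset of the line. -/
theorem concl_of_seq {X : Type} [TopologicalSpace X] (S : Set ℝ) (hS : S ⊆ Set.Icc (0 : ℝ) 1)
    (hinf : S.Infinite) (f : X → S) (hf : Continuous f) (Q : Set S) (hQ : Dense Q)
    (H : ∀ (s : S) (q : ℕ → S), (∀ n, q n ∈ Q) → Tendsto q atTop (𝓝 s) →
      ∃ x, f x = s ∧ x ∈ closure (f ⁻¹' range q)) : Concl X := by
  apply concl_of_map S hS hinf f hf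
  · intro s
    obtain ⟨q, hq, hqs⟩ := mem_closure_iff_seq_limit.mp (hQ s)
    obtain ⟨x, hx, -⟩ := H s q hq hqs
    exact ⟨x, hx⟩
  · intro G _ _ _ g hg
    apply continuous_of_dense_tendsto hQ
    intro s
    by_contra hcon
    rw [tendsto_def] at hcon
    push Not at hcon
    obtain ⟨V, hV, hnot⟩ := hcon
    have hfr : ∃ᶠ q in 𝓝[Q] s, g q ∉ V := by
      rw [Filter.Frequently]
      intro h
      apply hnot
      filter_upwards [h] with q hq
      simpa using hq
    have hcl : s ∈ closure (Q ∩ {q | g q ∉ V}) := by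
      rw [mem_closure_iff_frequently]
      rw [frequently_nhdsWithin_iff] at hfr
      exact hfr.mono fun q hq => ⟨hq.2, hq.1⟩
    obtain ⟨q, hq, hqs⟩ := mem_closure_iff_seq_limit.mp hcl
    obtain ⟨x, hx, hxc⟩ := H s q (fun n => (hq n).1) hqs
    have hO : (g ∘ f) ⁻¹' V ∈ 𝓝 x := by
      apply hg.continuousAt.preimage_mem_nhds
      simpa [hx] using hV
    obtain ⟨y, hy1, n, hn⟩ := mem_closure_iff_nhds.mp hxc _ hO
    apply (hq n).2
    rw [hn]
    exact hy1

end Pool.Agent.Lib.MP_5ffd28_gt
end

-- part Pool.Agent.Lib.MP_5ffd28_gt.Clopen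
section

set_option autoImplicit false
set_option linter.style.haveILetI false

namespace Pool.Agent.Lib.MP_5ffd28_gt

open Topology Filter Set

theorem exists_disjoint_clopen {X : Type} [TopologicalSpace X]
    (h : {U : Set X | IsClopen U}.Infinite) :
    ∃ V : ℕ → Set X, (∀ n, IsClopen (V n)) ∧ (∀ n, (V n).Nonempty) ∧
      Pairwise (Function.onFun Disjoint V) := by
  let Big : Set X → Prop := fun A => IsClopen A ∧ {U : Set X | IsClopen U ∧ U ⊆ A}.Infinite
  have hstep : ∀ A, Big A → ∃ A', Big A' ∧ A' ⊆ A ∧ (A \ A').Nonempty := by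
    rintro A ⟨hA, hinf⟩
    obtain ⟨U, ⟨hU, hUA⟩, hU'⟩ := hinf.exists_notMem_finite (toFinite ({∅, A} : Set (Set X)))
    simp only [mem_insert_iff, mem_singleton_iff, not_or] at hU'
    by_contra hcon
    push Not at hcon
    have h1 : {W : Set X | IsClopen W ∧ W ⊆ U}.Finite := by
      by_contra hn
      have := hcon U ⟨hU, hn⟩ hUA
      exact hU'.2 (subset_antisymm hUA (sdiff_eq_empty.mp this))
    have h2 : {W : Set X | IsClopen W ∧ W ⊆ A \ U}.Finite := by
      by_contra hn
      have := hcon (A \ U) ⟨hA.diff hU, hn⟩ sdiff_subset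
      apply hU'.1
      rw [sdiff_sdiff_cancel_left hUA] at this
      exact this
    apply hinf
    refine (Finite.image2 (fun a b => a ∪ b) h1 h2).subset ?_
    rintro W ⟨hW, hWA⟩
    refine ⟨W ∩ U, ⟨hW.inter hU, inter_subset_right⟩, W \ U,
      ⟨hW.diff hU, sdiff_subset_sdiff_left hWA⟩, ?_⟩
    simp
  have huniv : Big univ := ⟨isClopen_univ, by simpa using h⟩
  choose! nxt hnxt using hstep
  let A : ℕ → Set X := fun n => nxt^[n] univ
  have hA : ∀ n, Big (A n) := by
    intro n
    induction n with
    | zero => exact huniv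
    | succ n ih =>
      have : A (n + 1) = nxt (A n) := Function.iterate_succ_apply' _ _ _
      rw [this]
      exact (hnxt _ ih).1
  have hsucc : ∀ n, A (n + 1) = nxt (A n) := fun n => Function.iterate_succ_apply' _ _ _
  have hanti : Antitone A := antitone_nat_of_succ_le fun n => by
    rw [hsucc]; exact (hnxt _ (hA n)).2.1
  refine ⟨fun n => A n \ A (n + 1), fun n => (hA n).1.diff (hA (n + 1)).1, fun n => ?_, ?_⟩
  · show (A n \ A (n + 1)).Nonempty
    rw [hsucc]; exact (hnxt _ (hA n)).2.2
  · refine pairwise_disjoint_on _ |>.mpr ?_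
    intro m n hmn
    rw [Set.disjoint_left]
    intro x hx hx'
    exact hx.2 (hanti (Nat.succ_le_of_lt hmn) hx'.1)

noncomputable def uu (n : ℕ) : ℝ := 1 / ((n : ℝ) + 1)

theorem uu_pos (n : ℕ) : 0 < uu n := by unfold uu; positivity

theorem uu_le_one (n : ℕ) : uu n ≤ 1 := by
  unfold uu
  rw [div_le_one (by positivity)]
  have : (0 : ℝ) ≤ n := Nat.cast_nonneg n
  linarith

theorem uu_injective : Function.Injective uu := by
  intro a b h
  unfold uu at h
  have ha : (0 : ℝ) < (a : ℝ) + 1 := by positivity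
  have hb : (0 : ℝ) < (b : ℝ) + 1 := by positivity
  rw [div_eq_div_iff ha.ne' hb.ne'] at h
  have : (a : ℝ) = b := by linarith
  exact_mod_cast this

theorem uu_tendsto : Tendsto uu atTop (𝓝 0) := tendsto_one_div_add_atTop_nhds_zero_nat

theorem uu_eventually_eq {k : ℕ → ℕ} {m : ℕ} (h : Tendsto (fun n => uu (k n)) atTop (𝓝 (uu m))) :
    ∀ᶠ n in atTop, k n = m := by
  have h1 : Tendsto (fun n => (uu (k n))⁻¹ - 1) atTop (𝓝 ((uu m)⁻¹ - 1)) :=
    (h.inv₀ (uu_pos m).ne').sub_const 1
  have h2 : ∀ j : ℕ, (uu j)⁻¹ - 1 = (j : ℝ) := fun j => by simp [uu]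
  simp only [h2] at h1
  have h3 : Tendsto k atTop (𝓝 m) :=
    (Nat.isClosedEmbedding_coe_real.isInducing.tendsto_nhds_iff).mpr h1
  rw [nhds_discrete, tendsto_pure] at h3
  exact h3

/-- A locally finite sequence of clopen sets gives a quotient onto a discrete sequence. -/
theorem concl_of_locallyFinite {X : Type} [TopologicalSpace X] (V : ℕ → Set X)
    (hV : ∀ n, IsClopen (V n)) (hne : ∀ n, (V n).Nonempty)
    (hd : Pairwise (Function.onFun Disjoint V)) (hlf : LocallyFinite V) : Concl X := by
  classical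
  let idx : X → ℕ := fun x => if h : ∃ n, x ∈ V n then h.choose else 0
  have hidx : ∀ n, ∀ x ∈ V n, idx x = n := by
    intro n x hx
    have h : ∃ n, x ∈ V n := ⟨n, hx⟩
    simp only [idx, dif_pos h]
    by_contra hne'
    exact Set.disjoint_left.mp (hd hne') h.choose_spec hx
  have hcont : Continuous idx := by
    rw [continuous_iff_continuousAt]
    intro x
    by_cases hx : ∃ n, x ∈ V n
    · obtain ⟨n, hn⟩ := hx
      apply ContinuousAt.congr (f := fun _ => n) continuousAt_const
      filter_upwards [(hV n).isOpen.mem_nhds hn] with y hy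
      exact (hidx n y hy).symm
    · apply ContinuousAt.congr (f := fun _ => 0) continuousAt_const
      have hcl : IsClosed (⋃ n, V n) := hlf.isClosed_iUnion fun n => (hV n).isClosed
      filter_upwards [hcl.isOpen_compl.mem_nhds (by simpa using hx)] with y hy
      have : ¬ ∃ n, y ∈ V n := by simpa using hy
      simp only [idx, dif_neg this]
  let f : X → range uu := fun x => ⟨uu (idx x), mem_range_self _⟩
  have hf : Continuous f :=
    Continuous.subtype_mk ((continuous_of_discreteTopology (f := uu)).comp hcont) _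
  refine concl_of_seq (range uu) ?_ (infinite_range_of_injective uu_injective) f hf univ
    dense_univ ?_
  · rintro _ ⟨n, rfl⟩
    exact ⟨(uu_pos n).le, uu_le_one n⟩
  · rintro ⟨_, m, rfl⟩ q - hq
    choose k hk using fun n => (q n).2
    have h1 : Tendsto (fun n => uu (k n)) atTop (𝓝 (uu m)) := by
      simp only [hk]
      exact (continuous_subtype_val.tendsto _).comp hq
    obtain ⟨n, hn⟩ := (uu_eventually_eq h1).exists
    obtain ⟨x, hx⟩ := hne m
    refine ⟨x, Subtype.ext (by simp [f, hidx m x hx]), subset_closure ⟨n, Subtype.ext ?_⟩⟩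
    simp [f, hidx m x hx, ← hk, hn]

/-- If no infinite subfamily is locally finite we get a quotient onto a convergent sequence. -/
theorem concl_of_clustering {X : Type} [TopologicalSpace X] (V : ℕ → Set X)
    (hV : ∀ n, IsClopen (V n)) (hne : ∀ n, (V n).Nonempty)
    (hd : Pairwise (Function.onFun Disjoint V))
    (hcl : ∀ A : Set ℕ, A.Infinite → ∃ z : X, ∀ O ∈ 𝓝 z,
      {n | n ∈ A ∧ (V n ∩ O).Nonempty}.Infinite) : Concl X := by
  classical
  let F : X → ℝ := fun x => if h : ∃ n, x ∈ V n then uu h.choose else 0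
  have hF : ∀ n, ∀ x ∈ V n, F x = uu n := by
    intro n x hx
    have h : ∃ n, x ∈ V n := ⟨n, hx⟩
    simp only [F, dif_pos h]
    congr 1
    by_contra hne'
    exact Set.disjoint_left.mp (hd hne') h.choose_spec hx
  have hF0 : ∀ x, (¬ ∃ n, x ∈ V n) → F x = 0 := fun x hx => by simp only [F, dif_neg hx]
  have hcont : Continuous F := by
    rw [continuous_iff_continuousAt]
    intro x
    by_cases hx : ∃ n, x ∈ V n
    · obtain ⟨n, hn⟩ := hx
      apply ContinuousAt.congr (f := fun _ => uu n) continuousAt_const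
      filter_upwards [(hV n).isOpen.mem_nhds hn] with y hy
      exact (hF n y hy).symm
    · rw [ContinuousAt, hF0 x hx, Metric.tendsto_nhds]
      intro ε hε
      obtain ⟨N, hN⟩ := eventually_atTop.mp (Metric.tendsto_nhds.mp uu_tendsto ε hε)
      have hc : IsClosed (⋃ n ∈ Finset.range N, V n) :=
        isClosed_biUnion_finset fun n _ => (hV n).isClosed
      filter_upwards [hc.isOpen_compl.mem_nhds (by
        simp only [mem_compl_iff, mem_iUnion, not_exists]
        exact fun n _ hn => hx ⟨n, hn⟩)] with y hy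
      by_cases hy' : ∃ n, y ∈ V n
      · obtain ⟨n, hn⟩ := hy'
        rw [hF n y hn]
        apply hN
        by_contra hlt
        exact hy (mem_biUnion (Finset.mem_range.mpr (not_le.mp hlt)) hn)
      · rw [hF0 y hy']
        simpa using hε
  have hz : ∀ A : Set ℕ, A.Infinite → ∃ z : X, F z = 0 ∧ z ∈ closure (⋃ n ∈ A, V n) := by
    intro A hA
    obtain ⟨z, hz⟩ := hcl A hA
    refine ⟨z, hF0 z ?_, ?_⟩
    · rintro ⟨m, hm⟩
      apply hz (V m) ((hV m).isOpen.mem_nhds hm)
      refine (finite_singleton m).subset ?_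
      rintro n ⟨-, y, hy1, hy2⟩
      by_contra hnm
      exact Set.disjoint_left.mp (hd hnm) hy1 hy2
    · rw [mem_closure_iff_nhds]
      intro O hO
      obtain ⟨n, hnA, y, hy1, hy2⟩ := (hz O hO).nonempty
      exact ⟨y, hy2, mem_biUnion hnA hy1⟩
  have hmem : ∀ x, F x ∈ insert (0 : ℝ) (range uu) := by
    intro x
    by_cases hx : ∃ n, x ∈ V n
    · obtain ⟨n, hn⟩ := hx
      exact Or.inr ⟨n, (hF n x hn).symm⟩
    · exact Or.inl (hF0 x hx)
  let f : X → (insert (0 : ℝ) (range uu) : Set ℝ) := fun x => ⟨F x, hmem x⟩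
  have hf : Continuous f := hcont.subtype_mk _
  have hsurj : Function.Surjective f := by
    rintro ⟨s, hs | ⟨m, rfl⟩⟩
    · obtain ⟨z, hz0, -⟩ := hz univ infinite_univ
      exact ⟨z, Subtype.ext (by simp [f, hz0, hs])⟩
    · obtain ⟨x, hx⟩ := hne m
      exact ⟨x, Subtype.ext (hF m x hx)⟩
  refine concl_of_seq _ ?_
    ((infinite_range_of_injective uu_injective).mono (subset_insert _ _)) f hf univ
    dense_univ ?_
  · rintro _ (rfl | ⟨n, rfl⟩)
    · exact ⟨le_rfl, zero_le_one⟩
    · exact ⟨(uu_pos n).le, uu_le_one n⟩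
  · intro s q _ hq
    by_cases hqs : ∃ n, q n = s
    · obtain ⟨n, hn⟩ := hqs
      obtain ⟨x, hx⟩ := hsurj s
      exact ⟨x, hx, subset_closure ⟨n, by rw [hn, hx]⟩⟩
    push Not at hqs
    have hq' : Tendsto (fun n => (q n : ℝ)) atTop (𝓝 (s : ℝ)) :=
      (continuous_subtype_val.tendsto _).comp hq
    obtain ⟨s, hs | ⟨m, rfl⟩⟩ := s
    · subst hs
      have hk : ∀ n, ∃ k, uu k = q n := by
        intro n
        rcases (q n).2 with h | h
        · exact absurd (Subtype.ext h) (hqs n)
        · exact h
      choose k hk using hk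
      have hA : (range k).Infinite := by
        intro hfin
        obtain ⟨B, hB⟩ := hfin.bddAbove
        have h1 : ∀ᶠ n in atTop, (q n : ℝ) < uu B := hq'.eventually (gt_mem_nhds (uu_pos B))
        obtain ⟨n, hn⟩ := h1.exists
        rw [← hk] at hn
        have h2 : k n ≤ B := hB (mem_range_self n)
        have h3 : uu B ≤ uu (k n) := by
          unfold uu
          apply one_div_le_one_div_of_le (by positivity)
          have : (k n : ℝ) ≤ B := by exact_mod_cast h2
          linarith
        linarith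
      obtain ⟨z, hz0, hzc⟩ := hz _ hA
      refine ⟨z, Subtype.ext hz0, closure_mono ?_ hzc⟩
      intro y hy
      simp only [mem_iUnion] at hy
      obtain ⟨_, ⟨n, rfl⟩, hy⟩ := hy
      exact ⟨n, Subtype.ext (by simp [f, hF _ y hy, hk])⟩
    · exfalso
      have h1 : ∀ᶠ n in atTop, 0 < (q n : ℝ) := hq'.eventually (lt_mem_nhds (uu_pos m))
      obtain ⟨N, hN⟩ := eventually_atTop.mp h1
      have hk : ∀ n, ∃ k, uu k = q (n + N) := by
        intro n
        rcases (q (n + N)).2 with h | h
        · exact absurd h (hN (n + N) (by omega)).ne'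
        · exact h
      choose k hk using hk
      have h2 : Tendsto (fun n => uu (k n)) atTop (𝓝 (uu m)) := by
        simp only [hk]
        exact hq'.comp (tendsto_add_atTop_nat N)
      obtain ⟨n, hn⟩ := (uu_eventually_eq h2).exists
      apply hqs (n + N)
      apply Subtype.ext
      rw [← hk, hn]

theorem concl_of_infinite_clopen {X : Type} [TopologicalSpace X]
    (h : {U : Set X | IsClopen U}.Infinite) : Concl X := by
  obtain ⟨V, hV, hne, hd⟩ := exists_disjoint_clopen h
  by_cases hcl : ∀ A : Set ℕ, A.Infinite → ∃ z : X, ∀ O ∈ 𝓝 z,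
      {n | n ∈ A ∧ (V n ∩ O).Nonempty}.Infinite
  · exact concl_of_clustering V hV hne hd hcl
  push Not at hcl
  obtain ⟨A, hA, hlf⟩ := hcl
  let e := hA.natEmbedding
  have he : Function.Injective fun n => (e n : ℕ) := Subtype.val_injective.comp e.injective
  refine concl_of_locallyFinite (fun n => V (e n)) (fun n => hV _) (fun n => hne _)
    (fun m n hmn => hd (he.ne hmn)) ?_
  intro z
  obtain ⟨O, hO, hfin⟩ := hlf z
  refine ⟨O, hO, ?_⟩
  refine (hfin.preimage he.injOn).subset ?_
  intro n hn
  exact ⟨(e n).2, hn⟩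

/-- With finitely many clopen sets, connected components are clopen. -/
theorem isClopen_connectedComponent_of_finite {X : Type} [TopologicalSpace X]
    (h : {U : Set X | IsClopen U}.Finite) (x : X) : IsClopen (connectedComponent x) := by
  let Y : Set X := ⋂ U ∈ {U : Set X | IsClopen U ∧ x ∈ U}, U
  have hY : IsClopen Y :=
    (h.subset fun U hU => hU.1).isClopen_biInter fun U hU => hU.1
  have hxY : x ∈ Y := mem_iInter₂.mpr fun U hU => hU.2
  have hmin : ∀ U, IsClopen U → x ∈ U → Y ⊆ U := fun U hU hx =>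
    biInter_subset_of_mem (s := {U : Set X | IsClopen U ∧ x ∈ U}) ⟨hU, hx⟩
  have hconn : IsPreconnected Y := by
    rw [isPreconnected_iff_subset_of_disjoint]
    intro u v hu hv hY' hdisj
    have key : ∀ u v : Set X, IsOpen u → IsOpen v → Y ⊆ u ∪ v → Y ∩ (u ∩ v) = ∅ → x ∈ u →
        Y ⊆ u := by
      intro u v hu hv hY' hdisj hxu
      have hc : IsClopen (Y ∩ u) := by
        refine ⟨?_, hY.isOpen.inter hu⟩
        have : Y ∩ u = Y ∩ vᶜ := by
          ext y
          constructor
          · rintro ⟨h1, h2⟩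
            refine ⟨h1, fun h3 => ?_⟩
            have : y ∈ Y ∩ (u ∩ v) := ⟨h1, h2, h3⟩
            rw [hdisj] at this
            exact this
          · rintro ⟨h1, h2⟩
            exact ⟨h1, (hY' h1).resolve_right h2⟩
        rw [this]
        exact hY.isClosed.inter hv.isClosed_compl
      exact (hmin _ hc ⟨hxY, hxu⟩).trans inter_subset_right
    rcases hY' hxY with hxu | hxv
    · exact Or.inl (key u v hu hv hY' hdisj hxu)
    · exact Or.inr (key v u hv hu (by rwa [union_comm]) (by rwa [inter_comm v u]) hxv)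
  have : connectedComponent x = Y :=
    subset_antisymm (hY.connectedComponent_subset hxY) (hconn.subset_connectedComponent hxY)
  rw [this]
  exact hY

end Pool.Agent.Lib.MP_5ffd28_gt
end
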