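import Mathlib
import Pool.Agent.Lib.MP_5ffd28_gt.Clopen

-- part Pool.Agent.Lib.MP_5ffd28_gt.Stair
section

set_option autoImplicit false
set_option linter.style.haveILetI false

namespace Pool.Agent.Lib.MP_5ffd28_gt

open Topology Filter Set MeasureTheory

theorem compl_countable_residual {A : Set ℝ} (hA : A.Countable) : Aᶜ ∈ residual ℝ := by
  have : Aᶜ = ⋂ a ∈ A, ({a}ᶜ : Set ℝ) := by
    ext x
    simp only [mem_compl_iff, mem_iInter, mem_singleton_iff]
    constructor
    · intro h a ha hxa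
      exact h (hxa ▸ ha)
    · intro h hx
      exact h x hx rfl
  rw [this, countable_bInter_mem hA]
  intro a _
  exact residual_of_dense_open isOpen_compl_singleton (dense_compl_singleton a)

/-- A continuous staircase which grows only on a nowhere dense compact subset of a residual set. -/
theorem exists_staircase {R : Set ℝ} (hR : R ∈ residual ℝ) :
    ∃ (C : Set ℝ) (p : ℝ → ℝ), C ⊆ R ∧ Dense Cᶜ ∧ Continuous p ∧ p 0 = 0 ∧ p 1 = 1 ∧
      (∀ u ∈ Icc (0 : ℝ) 1, p u ∈ Icc (0 : ℝ) 1) ∧
      ∀ u, u ∉ C → ∃ ε > 0, ∀ v, |v - u| < ε → p v = p u := by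
  obtain ⟨t, htR, htG, htd⟩ := mem_residual.mp hR
  have hQ : (range ((↑) : ℚ → ℝ)).Countable := countable_range _
  let R0 : Set ℝ := t ∩ Ioo 0 1 ∩ (range ((↑) : ℚ → ℝ))ᶜ
  have hR0m : MeasurableSet R0 :=
    (htG.measurableSet.inter measurableSet_Ioo).inter hQ.measurableSet.compl
  have hR0u : ¬ Countable R0 := by
    intro hc
    have hc' : R0.Countable := hc
    have h1 : t ∩ (range ((↑) : ℚ → ℝ))ᶜ ∩ R0ᶜ ∈ residual ℝ :=
      inter_mem (inter_mem (residual_of_dense_Gδ htG htd) (compl_countable_residual hQ))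
        (compl_countable_residual hc')
    obtain ⟨x, hx1, hx2⟩ := (dense_of_mem_residual h1).inter_open_nonempty (Ioo 0 1) isOpen_Ioo
      (nonempty_Ioo.mpr zero_lt_one)
    exact hx2.2 ⟨⟨hx2.1.1, hx1⟩, hx2.1.2⟩
  haveI := hR0m.standardBorel
  let Φ : ℝ ≃ᵐ R0 := PolishSpace.measurableEquivOfNotCountable not_countable hR0u
  let e : ℝ → ℝ := fun x => (Φ x : ℝ)
  have he : Measurable e := measurable_subtype_coe.comp Φ.measurable
  have hei : Function.Injective e := Subtype.val_injective.comp Φ.injective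
  let ν : Measure ℝ := Measure.map e (volume.restrict (Icc (0 : ℝ) 1))
  haveI : IsFiniteMeasure ν := inferInstance
  have hν0 : 0 < ν R0 := by
    rw [Measure.map_apply he hR0m]
    have : e ⁻¹' R0 = univ := eq_univ_of_forall fun x => (Φ x).2
    rw [this]
    simp
  obtain ⟨C, hCR, hCc, hCpos⟩ := hR0m.exists_lt_isCompact (μ := ν) hν0
  have hCm : MeasurableSet C := hCc.isClosed.measurableSet
  haveI : NullSingletonClass ν := ⟨fun x => by
    rw [Measure.map_apply he (measurableSet_singleton x)]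
    exact Set.Subsingleton.measure_zero (subsingleton_singleton.preimage hei) _⟩
  let μ : Measure ℝ := ν.restrict C
  have hint : Integrable (fun _ : ℝ => (1 : ℝ)) μ := integrable_const 1
  let q : ℝ → ℝ := fun u => ∫ _ in (0 : ℝ)..u, (1 : ℝ) ∂μ
  have hqc : Continuous q := hint.continuous_primitive 0
  have hq : ∀ u, 0 ≤ u → q u = μ.real (Ioc 0 u) := by
    intro u hu
    simp only [q]
    rw [intervalIntegral.integral_of_le hu]
    simp
  have hCI : C ⊆ Ioc 0 1 := fun x hx => Ioo_subset_Ioc_self (hCR hx).1.2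
  have hq1 : 0 < q 1 := by
    rw [hq 1 zero_le_one, Measure.real, Measure.restrict_apply measurableSet_Ioc,
      inter_eq_right.mpr hCI]
    exact ENNReal.toReal_pos hCpos.ne' (measure_ne_top _ _)
  refine ⟨C, fun u => q u / q 1, fun x hx => htR (hCR hx).1.1, ?_, hqc.div_const _, by simp [q],
    div_self hq1.ne', ?_, ?_⟩
  · refine (Rat.denseRange_cast (𝕜 := ℝ)).mono ?_
    intro x hx hxC
    exact (hCR hxC).2 hx
  · intro u hu
    constructor
    · show 0 ≤ q u / q 1
      rw [hq u hu.1]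
      exact div_nonneg measureReal_nonneg hq1.le
    · show q u / q 1 ≤ 1
      rw [div_le_one hq1, hq u hu.1, hq 1 zero_le_one]
      exact measureReal_mono (Ioc_subset_Ioc_right hu.2)
  · intro u hu
    obtain ⟨ε, hε, hball⟩ := Metric.isOpen_iff.mp hCc.isClosed.isOpen_compl u hu
    refine ⟨ε, hε, fun v hv => ?_⟩
    have hsub : q v - q u = ∫ _ in u..v, (1 : ℝ) ∂μ :=
      intervalIntegral.integral_interval_sub_left hint.intervalIntegrable hint.intervalIntegrable
    have hz : μ (uIoc u v) = 0 := by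
      rw [Measure.restrict_apply measurableSet_uIoc]
      have : uIoc u v ∩ C = ∅ := by
        rw [eq_empty_iff_forall_notMem]
        rintro x ⟨hx1, hx2⟩
        apply hball _ hx2
        rw [Metric.mem_ball, Real.dist_eq]
        exact (abs_sub_left_of_mem_uIcc (uIoc_subset_uIcc hx1)).trans_lt hv
      rw [this, measure_empty]
    have h0 : ∫ _ in u..v, (1 : ℝ) ∂μ = 0 := by
      rw [intervalIntegral.intervalIntegral_eq_integral_uIoc, Measure.restrict_eq_zero.mpr hz]
      simp
    show q v / q 1 = q u / q 1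
    rw [h0, sub_eq_zero] at hsub
    rw [hsub]

end Pool.Agent.Lib.MP_5ffd28_gt
end

-- part Pool.Agent.Lib.MP_5ffd28_gt.Main
section

-- part Pool.Agent.Lib.MP_5ffd28_gt.Bumps
section

set_option autoImplicit false
set_option linter.style.haveILetI false

namespace Pool.Agent.Lib.MP_5ffd28_gt

open Topology Filter Set

noncomputable def tent (j : ℕ) (u : ℝ) : ℝ := max 0 (1 - |2 * (u - j) - 1|)

theorem tent_continuous (j : ℕ) : Continuous (tent j) := by
  unfold tent
  fun_prop

theorem tent_nonneg (j : ℕ) (u : ℝ) : 0 ≤ tent j u := le_max_left _ _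

theorem tent_le_one (j : ℕ) (u : ℝ) : tent j u ≤ 1 :=
  max_le zero_le_one (by linarith [abs_nonneg (2 * (u - j) - 1)])

theorem tent_eq_zero_of_le {j : ℕ} {u : ℝ} (h : u ≤ j) : tent j u = 0 := by
  unfold tent
  apply max_eq_left
  rw [abs_of_neg (by linarith)]
  linarith

theorem tent_eq_zero_of_ge {j : ℕ} {u : ℝ} (h : (j : ℝ) + 1 ≤ u) : tent j u = 0 := by
  unfold tent
  apply max_eq_left
  rw [abs_of_pos (by linarith)]
  linarith

theorem tent_eq_zero_of_ne {j j' : ℕ} {u : ℝ} (h1 : (j : ℝ) ≤ u) (h2 : u ≤ j + 1) (h : j' ≠ j) :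
    tent j' u = 0 := by
  rcases lt_or_gt_of_ne h with h | h
  · apply tent_eq_zero_of_ge
    have : (j' : ℝ) + 1 ≤ j := by exact_mod_cast h
    linarith
  · apply tent_eq_zero_of_le
    have : (j : ℝ) + 1 ≤ j' := by exact_mod_cast h
    linarith

theorem tent_val (j : ℕ) {r : ℝ} (h0 : 0 ≤ r) (h1 : r ≤ 1) : tent j (j + 1 - r / 2) = r := by
  unfold tent
  rw [abs_of_nonneg (by linarith), max_eq_right (by linarith)]
  ring

abbrev II : Set ℝ := Set.Icc (0 : ℝ) 1

noncomputable def pr (u : ℝ) : II := projIcc 0 1 zero_le_one u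

theorem pr_continuous : Continuous pr := continuous_projIcc (h := zero_le_one)

theorem pr_val (a : II) : pr a = a := projIcc_val _ a

noncomputable def dd (n : ℕ) : ℝ := 1 / ((n : ℝ) + 1)

theorem dd_pos (n : ℕ) : 0 < dd n := by unfold dd; positivity

/-- The word attached to the parameter u at level n. -/
noncomputable def word (n : ℕ) (u : ℝ) : FreeAbelianGroup II :=
  ∑ j ∈ Finset.range (n + 2),
    (FreeAbelianGroup.of (pr (j * dd n + 2 * dd n * tent j u)) -
      FreeAbelianGroup.of (pr (j * dd n)))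

theorem word_eq (n : ℕ) {j : ℕ} (hj : j < n + 2) {u : ℝ} (h1 : (j : ℝ) ≤ u) (h2 : u ≤ j + 1) :
    word n u = FreeAbelianGroup.of (pr (j * dd n + 2 * dd n * tent j u)) -
      FreeAbelianGroup.of (pr (j * dd n)) := by
  unfold word
  rw [Finset.sum_eq_single j]
  · intro j' _ hne
    rw [tent_eq_zero_of_ne h1 h2 hne]
    simp
  · intro h
    exact absurd (Finset.mem_range.mpr hj) h

theorem word_zero (n : ℕ) : word n 0 = 0 := by
  unfold word
  apply Finset.sum_eq_zero
  intro j _
  rw [tent_eq_zero_of_le (Nat.cast_nonneg j)]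
  simp

theorem word_small (n : ℕ) (u : ℝ) : ∃ a b : II, dist a b ≤ 2 * dd n ∧
    word n u = FreeAbelianGroup.of a - FreeAbelianGroup.of b := by
  by_cases h : ∃ j < n + 2, tent j u ≠ 0
  · obtain ⟨j, hj, hne⟩ := h
    have h1 : (j : ℝ) ≤ u := by
      by_contra hc
      exact hne (tent_eq_zero_of_le (not_le.mp hc).le)
    have h2 : u ≤ j + 1 := by
      by_contra hc
      exact hne (tent_eq_zero_of_ge (not_le.mp hc).le)
    refine ⟨_, _, ?_, word_eq n hj h1 h2⟩
    rw [Subtype.dist_eq, Real.dist_eq]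
    refine (abs_projIcc_sub_projIcc zero_le_one).trans ?_
    have := dd_pos n
    have h3 := tent_nonneg j u
    have h4 := tent_le_one j u
    rw [add_sub_cancel_left, abs_of_nonneg (by positivity)]
    nlinarith
  · push Not at h
    refine ⟨pr 0, pr 0, by simpa using (dd_pos n).le, ?_⟩
    rw [sub_self]
    unfold word
    apply Finset.sum_eq_zero
    intro j hj
    rw [h j (Finset.mem_range.mp hj)]
    simp

theorem word_continuous (n : ℕ) : @Continuous _ _ _ (freeTop II) (word n) := by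
  letI := freeTop II
  haveI := freeTop_group II
  have hof := freeTop_of II
  unfold word
  apply continuous_finsetSum
  intro j _
  refine Continuous.sub (hof.comp (pr_continuous.comp ?_)) continuous_const
  exact continuous_const.add (continuous_const.mul (tent_continuous j))

theorem of_uniform {V : Set (FreeAbelianGroup II)} (hV : V ∈ @nhds _ (freeTop II) 0) :
    ∃ η > 0, ∀ a b : II, dist a b < η → FreeAbelianGroup.of a - FreeAbelianGroup.of b ∈ V := by
  letI := freeTop II
  haveI := freeTop_group II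
  have hof := freeTop_of II
  have hc : Continuous fun p : II × II => FreeAbelianGroup.of p.1 - FreeAbelianGroup.of p.2 :=
    (hof.comp continuous_fst).sub (hof.comp continuous_snd)
  have hmem : (fun p : II × II => FreeAbelianGroup.of p.1 - FreeAbelianGroup.of p.2) ⁻¹' V ∈
      𝓝ˢ (diagonal II) := by
    rw [mem_nhdsSet_iff_forall]
    rintro ⟨a, b⟩ hab
    have : a = b := hab
    subst this
    apply hc.continuousAt.preimage_mem_nhds
    simpa using hV
  rw [nhdsSet_diagonal_eq_uniformity, Metric.mem_uniformity_dist] at hmem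
  obtain ⟨η, hη, h⟩ := hmem
  exact ⟨η, hη, fun a b hab => h hab⟩

/-- The main construction. -/
theorem concl_of_bumps {X : Type} [TopologicalSpace X] (lam : ℕ → X → ℝ)
    (hcont : ∀ n, Continuous (lam n))
    (hdisj : ∀ m n x, lam m x ≠ 0 → lam n x ≠ 0 → m = n)
    (hsurj : ∀ n, ∀ r ∈ Icc (0 : ℝ) 1, ∃ x, lam n x = r)
    (hcl : ∀ O : ℕ → Set X, (∀ n, IsOpen (O n) ∧ (O n).Nonempty ∧ O n ⊆ {x | lam n x ≠ 0}) →
      ¬ LocallyFinite O) : Concl X := by
  classical
  let ψ : X → FreeAbelianGroup II := fun x =>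
    if h : ∃ n, lam n x ≠ 0 then word h.choose (((h.choose : ℝ) + 2) * lam h.choose x) else 0
  have hψ : ∀ n x, lam n x ≠ 0 → ψ x = word n (((n : ℝ) + 2) * lam n x) := by
    intro n x hx
    have h : ∃ n, lam n x ≠ 0 := ⟨n, hx⟩
    simp only [ψ, dif_pos h]
    rw [hdisj _ _ x h.choose_spec hx]
  have hψ0 : ∀ x, (¬ ∃ n, lam n x ≠ 0) → ψ x = 0 := fun x hx => by simp only [ψ, dif_neg hx]
  have hopen : ∀ n, IsOpen {x | lam n x ≠ 0} := fun n => isOpen_ne_fun (hcont n) continuous_const
  have hval : ∀ n j : ℕ, j < n + 2 → ∀ r ∈ Icc (0 : ℝ) 1, ∃ x, lam n x ≠ 0 ∧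
      ψ x = FreeAbelianGroup.of (pr (j * dd n + 2 * dd n * r)) -
        FreeAbelianGroup.of (pr (j * dd n)) := by
    intro n j hj r hr
    have hj' : (j : ℝ) + 1 ≤ n + 2 := by exact_mod_cast Nat.succ_le_of_lt hj
    have hj0 : (0 : ℝ) ≤ j := Nat.cast_nonneg j
    have hn : (0 : ℝ) < (n : ℝ) + 2 := by positivity
    have hupos : 0 < (j : ℝ) + 1 - r / 2 := by linarith [hr.2]
    obtain ⟨x, hx⟩ := hsurj n (((j : ℝ) + 1 - r / 2) / (n + 2))
      ⟨by positivity, by rw [div_le_one hn]; linarith [hr.1]⟩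
    have hne : lam n x ≠ 0 := by rw [hx]; positivity
    refine ⟨x, hne, ?_⟩
    rw [hψ n x hne, hx, mul_div_cancel₀ _ hn.ne',
      word_eq n hj (by linarith [hr.2]) (by linarith [hr.1]), tent_val j hr.1 hr.2]
  have hψc : @Continuous _ _ _ (freeTop II) ψ := by
    letI := freeTop II
    have hterm : ∀ n, Continuous fun x => word n (((n : ℝ) + 2) * lam n x) := fun n =>
      (word_continuous n).comp (continuous_const.mul (hcont n))
    rw [continuous_iff_continuousAt]
    intro x
    by_cases hx : ∃ n, lam n x ≠ 0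
    · obtain ⟨n, hn⟩ := hx
      apply ContinuousAt.congr (hterm n).continuousAt
      filter_upwards [(hopen n).mem_nhds hn] with y hy
      exact (hψ n y hy).symm
    · rw [ContinuousAt, hψ0 x hx, tendsto_def]
      intro V hV
      obtain ⟨η, hη, hηV⟩ := of_uniform hV
      have ht : Tendsto (fun n : ℕ => 2 * dd n) atTop (𝓝 (2 * 0)) :=
        tendsto_one_div_add_atTop_nhds_zero_nat.const_mul 2
      rw [mul_zero] at ht
      obtain ⟨N, hN⟩ := eventually_atTop.mp (ht.eventually (gt_mem_nhds hη))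
      have hev : ∀ᶠ y in 𝓝 x, ∀ n ∈ Finset.range N, word n (((n : ℝ) + 2) * lam n y) ∈ V := by
        rw [eventually_all_finset]
        intro n _
        apply (hterm n).continuousAt.preimage_mem_nhds
        have : lam n x = 0 := by
          by_contra h
          exact hx ⟨n, h⟩
        simp only [this, mul_zero, word_zero]
        exact hV
      filter_upwards [hev] with y hy
      by_cases hy' : ∃ n, lam n y ≠ 0
      · obtain ⟨n, hn⟩ := hy'
        rw [mem_preimage, hψ n y hn]
        rcases lt_or_ge n N with h | h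
        · exact hy n (Finset.mem_range.mpr h)
        · obtain ⟨a, b, hab, he⟩ := word_small n (((n : ℝ) + 2) * lam n y)
          rw [he]
          exact hηV a b (hab.trans_lt (hN n h))
      · rw [mem_preimage, hψ0 y hy']
        exact mem_of_mem_nhds hV
  refine ⟨II, subset_rfl, Icc_infinite zero_lt_one,
    FreeAbelianGroup.lift (fun x => ψ x + FreeAbelianGroup.of (pr 0)), ?_⟩
  apply open_of_detects
  · letI := freeTop II
    haveI := freeTop_group II
    exact hψc.add continuous_const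
  · intro a
    obtain ⟨x, -, hx⟩ := hval 0 0 (by omega) (a / 2) ⟨by linarith [a.2.1], by linarith [a.2.2]⟩
    refine ⟨x, ?_⟩
    rw [hx]
    have h1 : ((0 : ℕ) : ℝ) * dd 0 + 2 * dd 0 * (a / 2) = a := by simp [dd]; ring
    have h2 : ((0 : ℕ) : ℝ) * dd 0 = 0 := by simp
    rw [h1, h2, pr_val]
    simp
  · intro t ht hφ
    letI := t
    haveI := ht
    have hψt : Continuous ψ := by
      have := hφ.sub (continuous_const (y := FreeAbelianGroup.of (pr 0)))
      convert this using 1
      ext x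
      simp
    rw [continuous_iff_continuousAt]
    intro a
    suffices h : Tendsto (fun b : II => FreeAbelianGroup.of b - FreeAbelianGroup.of a) (𝓝 a)
        (𝓝 0) by
      have := h.add_const (FreeAbelianGroup.of a)
      simpa [ContinuousAt] using this
    rw [tendsto_def]
    intro V hV
    obtain ⟨W, hW, hWV⟩ := exists_nhds_half_neg hV
    obtain ⟨C, hC, hCc, hCW⟩ := exists_mem_nhds_isClosed_subset hW
    have hlevel : ∃ n, ∀ x, lam n x ≠ 0 → ψ x ∈ C := by
      by_contra hcon
      push Not at hcon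
      refine hcl (fun n => {x | lam n x ≠ 0} ∩ ψ ⁻¹' Cᶜ) (fun n => ⟨(hopen n).inter
        (hCc.isOpen_compl.preimage hψt), hcon n, inter_subset_left⟩) ?_
      intro z
      by_cases hz : ∃ m, lam m z ≠ 0
      · obtain ⟨m, hm⟩ := hz
        refine ⟨_, (hopen m).mem_nhds hm, (finite_singleton m).subset ?_⟩
        rintro n ⟨y, ⟨hy1, -⟩, hy2⟩
        exact hdisj n m y hy1 hy2
      · refine ⟨ψ ⁻¹' C, hψt.continuousAt.preimage_mem_nhds (by rw [hψ0 z hz]; exact hC),
          finite_empty.subset ?_⟩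
        rintro n ⟨y, ⟨-, hy1⟩, hy2⟩
        exact hy1 hy2
    obtain ⟨n, hn⟩ := hlevel
    have hd := dd_pos n
    filter_upwards [Metric.ball_mem_nhds a hd] with b hb
    rw [Metric.mem_ball, Subtype.dist_eq, Real.dist_eq, abs_lt] at hb
    set m : ℝ := min (a : ℝ) b with hm
    have hm0 : 0 ≤ m := le_min a.2.1 b.2.1
    have hm1 : m ≤ 1 := (min_le_left _ _).trans a.2.2
    let j : ℕ := ⌊m / dd n⌋₊
    have hj1 : (j : ℝ) * dd n ≤ m := by
      rw [← le_div_iff₀ hd]
      exact Nat.floor_le (by positivity)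
    have hj2 : m < (j + 1) * dd n := by
      rw [← div_lt_iff₀ hd]
      exact Nat.lt_floor_add_one _
    have hj : j < n + 2 := by
      have h1 : (j : ℝ) * dd n ≤ 1 := hj1.trans hm1
      unfold dd at h1
      rw [mul_one_div, div_le_one (by positivity)] at h1
      have : (j : ℝ) < n + 2 := by linarith
      exact_mod_cast this
    have hin : ∀ c : II, m ≤ c → (c : ℝ) < m + dd n →
        FreeAbelianGroup.of c - FreeAbelianGroup.of (pr (j * dd n)) ∈ C := by
      intro c hc1 hc2
      obtain ⟨x, hx1, hx2⟩ := hval n j hj ((c - j * dd n) / (2 * dd n))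
        ⟨div_nonneg (by linarith) (by positivity), by
          rw [div_le_one (by positivity)]; linarith⟩
      have he : (j : ℝ) * dd n + 2 * dd n * ((c - j * dd n) / (2 * dd n)) = c := by
        field_simp
        ring
      rw [he, pr_val] at hx2
      rw [← hx2]
      exact hn x hx1
    have ha := hin a (min_le_left _ _) (by
      rcases min_choice (a : ℝ) b with h | h <;> rw [hm, h] <;> linarith [hb.1])
    have hb' := hin b (min_le_right _ _) (by
      rcases min_choice (a : ℝ) b with h | h <;> rw [hm, h] <;> linarith [hb.2])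
    have := hWV _ (hCW hb') _ (hCW ha)
    simpa using this

/-- A bump function which takes all values in the unit interval. -/
theorem exists_bump {X : Type} [TopologicalSpace X] [T35Space X] {W Y : Set X} (hW : IsOpen W)
    (hY : IsPreconnected Y) {x y : X} (hxW : x ∈ W) (hx : x ∈ Y) (hy : y ∈ Y) (hxy : x ≠ y) :
    ∃ lam : X → ℝ, Continuous lam ∧ (∀ z, lam z ∈ Icc (0 : ℝ) 1) ∧ (∀ z, lam z ≠ 0 → z ∈ W) ∧
      ∀ r ∈ Icc (0 : ℝ) 1, ∃ z ∈ Y, lam z = r := by
  obtain ⟨f, hf, hfx, hfK⟩ := CompletelyRegularSpace.completely_regular x (Wᶜ ∪ {y})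
    (hW.isClosed_compl.union isClosed_singleton) (by simp [hxW, hxy])
  have hc : Continuous fun z => 1 - (f z : ℝ) :=
    continuous_const.sub (continuous_subtype_val.comp hf)
  refine ⟨fun z => 1 - (f z : ℝ), hc, fun z => ⟨by linarith [(f z).2.2], by linarith [(f z).2.1]⟩,
    ?_, ?_⟩
  · intro z hz
    by_contra hzW
    apply hz
    have : f z = 1 := hfK (Or.inl hzW)
    simp [this]
  · intro r hr
    have h1 : f y = 1 := hfK (Or.inr rfl)
    have := hY.intermediate_value hy hx hc.continuousOn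
    simp only [h1, hfx, Icc.coe_one, sub_self, Icc.coe_zero, sub_zero] at this
    exact this hr

end Pool.Agent.Lib.MP_5ffd28_gt
end

-- part Pool.Agent.Lib.MP_5ffd28_gt.Main
section

set_option autoImplicit false
set_option linter.style.haveILetI false

namespace Pool.Agent.Lib.MP_5ffd28_gt

open Topology Filter Set

/-- With finitely many clopen sets, an infinite set contains a point whose component is not a
singleton. -/
theorem exists_nontrivial_component {X : Type} [TopologicalSpace X]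
    (h : {U : Set X | IsClopen U}.Finite) {W : Set X} (hW : W.Infinite) :
    ∃ x ∈ W, ∃ y ∈ connectedComponent x, x ≠ y := by
  by_contra hcon
  push Not at hcon
  apply hW
  have hsub : (fun x : X => ({x} : Set X)) '' W ⊆ {U : Set X | IsClopen U} := by
    rintro _ ⟨x, hx, rfl⟩
    have : connectedComponent x = {x} :=
      eq_singleton_iff_unique_mem.mpr ⟨mem_connectedComponent, fun y hy => (hcon x hx y hy).symm⟩
    show IsClopen ({x} : Set X)
    rw [← this]
    exact isClopen_connectedComponent_of_finite h x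
  exact (h.subset hsub).of_finite_image singleton_injective.injOn

theorem concl_of_disjoint {X : Type} [TopologicalSpace X] [T35Space X] (W : ℕ → Set X)
    (hWo : ∀ n, IsOpen (W n)) (hWi : ∀ n, (W n).Infinite)
    (hd : Pairwise (Function.onFun Disjoint W))
    (hcl : ∀ O : ℕ → Set X, (∀ n, IsOpen (O n) ∧ (O n).Nonempty ∧ O n ⊆ W n) →
      ¬ LocallyFinite O) : Concl X := by
  by_cases h : {U : Set X | IsClopen U}.Infinite
  · exact concl_of_infinite_clopen h
  rw [not_infinite] at h
  have : ∀ n, ∃ lam : X → ℝ, Continuous lam ∧ (∀ z, lam z ≠ 0 → z ∈ W n) ∧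
      ∀ r ∈ Icc (0 : ℝ) 1, ∃ z, lam z = r := by
    intro n
    obtain ⟨x, hx, y, hy, hxy⟩ := exists_nontrivial_component h (hWi n)
    obtain ⟨lam, h1, -, h3, h4⟩ := exists_bump (hWo n) isPreconnected_connectedComponent hx
      mem_connectedComponent hy hxy
    exact ⟨lam, h1, h3, fun r hr => (h4 r hr).imp fun z hz => hz.2⟩
  choose lam h1 h2 h3 using this
  refine concl_of_bumps lam h1 ?_ h3 ?_
  · intro m n x hm hn
    by_contra hne
    exact Set.disjoint_left.mp (hd hne) (h2 m x hm) (h2 n x hn)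
  · intro O hO
    exact hcl O fun n => ⟨(hO n).1, (hO n).2.1, fun x hx => h2 n x ((hO n).2.2 hx)⟩

/-- A decreasing sequence of infinite open sets has a disjoint open refinement, if there are only
finitely many isolated points. -/
theorem exists_disjoint_refinement {X : Type} [TopologicalSpace X] [T3Space X]
    (hiso : {x : X | IsOpen ({x} : Set X)}.Finite) (W : ℕ → Set X) (hWo : ∀ n, IsOpen (W n))
    (hWi : ∀ n, (W n).Infinite) (hanti : Antitone W) :
    ∃ V : ℕ → Set X, (∀ n, IsOpen (V n)) ∧ (∀ n, (V n).Infinite) ∧ (∀ n, V n ⊆ W n) ∧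
      Pairwise (Function.onFun Disjoint V) := by
  -- an open set containing a non-isolated point is infinite
  have hinf : ∀ U : Set X, IsOpen U → ∀ x ∈ U, ¬ IsOpen ({x} : Set X) → U.Infinite := by
    intro U hU x hx hxo hfin
    apply hxo
    have : ({x} : Set X) = U ∩ (U \ {x})ᶜ := by
      ext y
      simp only [mem_singleton_iff, mem_inter_iff, mem_compl_iff, Set.mem_sdiff, not_and, not_not]
      exact ⟨fun h => ⟨h ▸ hx, fun _ => h⟩, fun h => h.2 h.1⟩
    rw [this]
    exact hU.inter (hfin.subset sdiff_subset).isClosed.isOpen_compl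
  let Good : Set X → Prop := fun R => IsClosed R ∧ ∀ m, (W m \ R).Infinite
  have hstep : ∀ (n : ℕ) (R : Set X), Good R → ∃ V : Set X, IsOpen V ∧ V.Infinite ∧
      V ⊆ W n \ R ∧ Good (R ∪ closure V) := by
    rintro n R ⟨hR, hRi⟩
    have hU : IsOpen (W n \ R) := (hWo n).sdiff hR
    obtain ⟨x, hx, y, hy, hxy⟩ := ((hRi n).sdiff hiso).nontrivial
    obtain ⟨A, hA, B, hB, hAB⟩ := exists_nhds_disjoint_closure hxy
    have hAo : IsOpen (interior A ∩ (W n \ R)) := isOpen_interior.inter hU
    have hBo : IsOpen (interior B ∩ (W n \ R)) := isOpen_interior.inter hU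
    have hAi := hinf _ hAo x ⟨mem_interior_iff_mem_nhds.mpr hA, hx.1⟩ hx.2
    have hBi := hinf _ hBo y ⟨mem_interior_iff_mem_nhds.mpr hB, hy.1⟩ hy.2
    by_contra hcon
    push Not at hcon
    have h1 := hcon _ hAo hAi inter_subset_right
    have h2 := hcon _ hBo hBi inter_subset_right
    simp only [Good, not_and, not_forall, not_infinite] at h1 h2
    obtain ⟨m1, hm1⟩ := h1 (hR.union isClosed_closure)
    obtain ⟨m2, hm2⟩ := h2 (hR.union isClosed_closure)
    apply hRi (max m1 m2)
    refine (hm1.union hm2).subset ?_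
    rintro z ⟨hz1, hz2⟩
    by_cases hzA : z ∈ closure (interior A ∩ (W n \ R))
    · right
      refine ⟨hanti (le_max_right _ _) hz1, ?_⟩
      rintro (h | h)
      · exact hz2 h
      · exact Set.disjoint_left.mp hAB
          (closure_mono (inter_subset_left.trans interior_subset) hzA)
          (closure_mono (inter_subset_left.trans interior_subset) h)
    · left
      refine ⟨hanti (le_max_left _ _) hz1, ?_⟩
      rintro (h | h)
      · exact hz2 h
      · exact hzA h
  choose! nxt hnxt using hstep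
  let R : ℕ → Set X := fun n => Nat.rec ∅ (fun k S => S ∪ closure (nxt k S)) n
  have hRs : ∀ n, R (n + 1) = R n ∪ closure (nxt n (R n)) := fun n => rfl
  have hR : ∀ n, Good (R n) := by
    intro n
    induction n with
    | zero => exact ⟨isClosed_empty, fun m => by simpa [R] using hWi m⟩
    | succ n ih => exact (hnxt n _ ih).2.2.2
  have hmono : Monotone R := monotone_nat_of_le_succ fun n => by
    rw [hRs]; exact subset_union_left
  refine ⟨fun n => nxt n (R n), fun n => (hnxt n _ (hR n)).1, fun n => (hnxt n _ (hR n)).2.1,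
    fun n => (hnxt n _ (hR n)).2.2.1.trans sdiff_subset, ?_⟩
  refine pairwise_disjoint_on _ |>.mpr ?_
  intro m n hmn
  rw [Set.disjoint_left]
  intro x hx hx'
  apply ((hnxt n _ (hR n)).2.2.1 hx').2
  apply hmono (Nat.succ_le_of_lt hmn)
  rw [hRs]
  exact Or.inr (subset_closure hx)

theorem concl_of_antitone {X : Type} [TopologicalSpace X] [T35Space X] (W : ℕ → Set X)
    (hWo : ∀ n, IsOpen (W n)) (hWi : ∀ n, (W n).Infinite) (hanti : Antitone W)
    (hcl : ∀ O : ℕ → Set X, (∀ n, IsOpen (O n) ∧ (O n).Nonempty ∧ O n ⊆ W n) →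
      ¬ LocallyFinite O) : Concl X := by
  by_cases h : {U : Set X | IsClopen U}.Infinite
  · exact concl_of_infinite_clopen h
  rw [not_infinite] at h
  have hiso : {x : X | IsOpen ({x} : Set X)}.Finite := by
    refine Finite.of_finite_image (f := fun x : X => ({x} : Set X)) (h.subset ?_)
      singleton_injective.injOn
    rintro _ ⟨x, hx, rfl⟩
    exact ⟨isClosed_singleton, hx⟩
  obtain ⟨V, h1, h2, h3, h4⟩ := exists_disjoint_refinement hiso W hWo hWi hanti
  exact concl_of_disjoint V h1 h2 h4 fun O hO =>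
    hcl O fun n => ⟨(hO n).1, (hO n).2.1, (hO n).2.2.trans (h3 n)⟩

/-- The network argument: Y is covered by bounded sets with a countable network modulo the cover,
and some continuous function maps Y onto a set containing the open unit interval. -/
theorem concl_of_network {X : Type} [TopologicalSpace X] (Y : Set X) (𝒦 𝒩 : Set (Set X))
    (hcov : Y ⊆ ⋃₀ 𝒦) (hN : 𝒩.Countable)
    (hbdd : ∀ K ∈ 𝒦, ∀ O : ℕ → Set X, (∀ n, IsOpen (O n)) → LocallyFinite O →
      {n | (O n ∩ K).Nonempty}.Finite)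
    (hnet : ∀ K ∈ 𝒦, ∀ O : Set X, IsOpen O → K ⊆ O → ∃ N ∈ 𝒩, K ⊆ N ∧ N ⊆ O)
    (f : X → ℝ) (hf : Continuous f) (hf01 : ∀ x, f x ∈ Icc (0 : ℝ) 1)
    (hfs : ∀ r ∈ Icc (0 : ℝ) 1, ∃ x, f x = r) (hfY : ∀ r ∈ Ioo (0 : ℝ) 1, ∃ y ∈ Y, f y = r) :
    Concl X := by
  have hR : (⋂ N ∈ 𝒩, (frontier (closure (f '' N)))ᶜ) ∩ ({0, 1} : Set ℝ)ᶜ ∈ residual ℝ := by
    refine inter_mem ?_ (compl_countable_residual (toFinite _).countable)
    rw [countable_bInter_mem hN]
    intro N _
    refine residual_of_dense_open isClosed_frontier.isOpen_compl ?_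
    rw [dense_iff_closure_eq, closure_compl, interior_frontier isClosed_closure, compl_empty]
  obtain ⟨C, p, hCR, hCd, hpc, hp0, hp1, hp01, hpl⟩ := exists_staircase hR
  let F : X → II := fun x => ⟨p (f x), hp01 _ (hf01 x)⟩
  have hF : Continuous F := (hpc.comp hf).subtype_mk _
  let P : II → II := fun u => ⟨p u, hp01 _ u.2⟩
  have hP : Continuous P := (hpc.comp continuous_subtype_val).subtype_mk _
  have hPs : Function.Surjective P := by
    intro s
    have := intermediate_value_Icc zero_le_one hpc.continuousOn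
    rw [hp0, hp1] at this
    obtain ⟨u, hu, hus⟩ := this s.2
    exact ⟨⟨u, hu⟩, Subtype.ext hus⟩
  have hD : Dense {u : II | (u : ℝ) ∈ Ioo (0 : ℝ) 1 ∧ (u : ℝ) ∉ C} := by
    rw [Subtype.dense_iff]
    have h1 : Ioo (0 : ℝ) 1 ⊆ closure (Ioo 0 1 ∩ Cᶜ) := hCd.open_subset_closure_inter isOpen_Ioo
    have h2 : (Subtype.val : II → ℝ) '' {u : II | (u : ℝ) ∈ Ioo (0 : ℝ) 1 ∧ (u : ℝ) ∉ C} =
        Ioo 0 1 ∩ Cᶜ := by
      ext u
      constructor
      · rintro ⟨v, hv, rfl⟩
        exact hv
      · intro hu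
        exact ⟨⟨u, Ioo_subset_Icc_self hu.1⟩, hu, rfl⟩
    rw [h2]
    have h3 := closure_mono h1
    rw [closure_closure, closure_Ioo zero_ne_one] at h3
    exact h3
  refine concl_of_seq II subset_rfl (Icc_infinite zero_lt_one) F hF
    (P '' {u : II | (u : ℝ) ∈ Ioo (0 : ℝ) 1 ∧ (u : ℝ) ∉ C})
    (hPs.denseRange.dense_image hP hD) ?_
  intro s q hq hqs
  choose u hu hqu using hq
  obtain ⟨t, φ, hφ, hut⟩ := CompactSpace.tendsto_subseq u
  have hst : P t = s := by
    have h1 : Tendsto (fun n => P (u (φ n))) atTop (𝓝 (P t)) := (hP.tendsto t).comp hut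
    simp only [hqu] at h1
    exact tendsto_nhds_unique h1 (hqs.comp hφ.tendsto_atTop)
  have hut' : Tendsto (fun n => (u (φ n) : ℝ)) atTop (𝓝 (t : ℝ)) :=
    (continuous_subtype_val.tendsto _).comp hut
  by_cases htC : (t : ℝ) ∈ C
  swap
  · obtain ⟨ε, hε, hε'⟩ := hpl t htC
    obtain ⟨n, hn⟩ := (Metric.tendsto_nhds.mp hut' ε hε).exists
    obtain ⟨x, hx⟩ := hfs t t.2
    have hFx : F x = s := by
      rw [← hst]
      exact Subtype.ext (by simp [F, P, hx])
    refine ⟨x, hFx, subset_closure ⟨φ n, ?_⟩⟩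
    rw [hFx, ← hst, ← hqu]
    exact Subtype.ext (hε' _ hn)
  by_contra hcon
  push Not at hcon
  have ht01 : (t : ℝ) ∈ Ioo (0 : ℝ) 1 := by
    have h := (hCR htC).2
    simp only [mem_compl_iff, mem_insert_iff, mem_singleton_iff, not_or] at h
    exact ⟨lt_of_le_of_ne t.2.1 (Ne.symm h.1), lt_of_le_of_ne t.2.2 h.2⟩
  obtain ⟨y, hyY, hy⟩ := hfY t ht01
  obtain ⟨K, hK, hyK⟩ := hcov hyY
  -- plateaus around the points u (φ n)
  have hpl' : ∀ n : ℕ, ∃ ε > (0 : ℝ), ε ≤ 1 / ((n : ℝ) + 1) ∧
      ∀ v : ℝ, |v - (u (φ n) : ℝ)| < ε → p v = p (u (φ n)) := by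
    intro n
    obtain ⟨ε, hε, h⟩ := hpl _ (hu (φ n)).2
    exact ⟨min ε (1 / ((n : ℝ) + 1)), lt_min hε (by positivity), min_le_right _ _,
      fun v hv => h v (hv.trans_le (min_le_left _ _))⟩
  choose ε hε hε1 hεp using hpl'
  have hεt : Tendsto ε atTop (𝓝 0) :=
    squeeze_zero (fun n => (hε n).le) hε1 tendsto_one_div_add_atTop_nhds_zero_nat
  have hnear : ∀ η > (0 : ℝ), ∀ᶠ n in atTop, ∀ v : ℝ, |v - (u (φ n) : ℝ)| < ε n → |v - (t : ℝ)| < η := by
    intro η hη
    filter_upwards [Metric.tendsto_nhds.mp hut' (η / 2) (by positivity),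
      hεt.eventually (gt_mem_nhds (show 0 < η / 2 by positivity))] with n h1 h2 v hv
    rw [Real.dist_eq] at h1
    calc |v - (t : ℝ)| = |(v - (u (φ n) : ℝ)) + ((u (φ n) : ℝ) - (t : ℝ))| := by ring_nf
      _ ≤ |v - (u (φ n) : ℝ)| + |(u (φ n) : ℝ) - (t : ℝ)| := abs_add_le _ _
      _ < η := by linarith
  let O : ℕ → Set X := fun n => {x | |f x - u (φ n)| < ε n}
  have hOo : ∀ n, IsOpen (O n) := fun n =>
    isOpen_lt (continuous_abs.comp (hf.sub continuous_const)) continuous_const
  have hOlf : LocallyFinite O := by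
    intro x
    by_cases hx : f x = t
    · have hFx : F x = s := by
        rw [← hst]
        exact Subtype.ext (by simp [F, P, hx])
      refine ⟨(closure (F ⁻¹' range q))ᶜ, isClosed_closure.isOpen_compl.mem_nhds (hcon x hFx),
        finite_empty.subset ?_⟩
      rintro n ⟨z, hz1, hz2⟩
      refine hz2 (subset_closure ⟨φ n, ?_⟩)
      rw [← hqu]
      exact Subtype.ext (hεp n _ hz1).symm
    · have hη : 0 < |f x - t| / 2 := by
        have := abs_pos.mpr (sub_ne_zero.mpr hx)
        positivity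
      obtain ⟨M, hM⟩ := eventually_atTop.mp (hnear _ hη)
      refine ⟨{z | |f x - t| / 2 < |f z - t|}, (isOpen_lt continuous_const
        (continuous_abs.comp (hf.sub continuous_const))).mem_nhds (by
          show |f x - t| / 2 < |f x - t|
          linarith), (finite_lt_nat M).subset ?_⟩
      rintro n ⟨z, hz1, hz2⟩
      by_contra hn
      have := hM n (not_lt.mp hn) _ hz1
      simp only [mem_ofPred_eq] at hz2
      linarith
  obtain ⟨M, hM⟩ := (hbdd K hK O hOo hOlf).bddAbove
  let Z : ℕ → Set X := fun n => {x | |f x - u (φ (n + M + 1))| ≤ ε (n + M + 1) / 2}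
  have hZO : ∀ n, Z n ⊆ O (n + M + 1) := fun n x hx => by
    have := hε (n + M + 1)
    simp only [Z, O, mem_ofPred_eq] at hx ⊢
    linarith
  have hZc : IsClosed (⋃ n, Z n) := by
    refine LocallyFinite.isClosed_iUnion ?_ fun n =>
      isClosed_le (continuous_abs.comp (hf.sub continuous_const)) continuous_const
    exact (hOlf.comp_injective (g := fun n => n + M + 1) fun a b h => by
      simpa using h).subset hZO
  obtain ⟨N, hNN, hKN, hNZ⟩ := hnet K hK _ hZc.isOpen_compl (by
    intro x hx hxZ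
    obtain ⟨n, hn⟩ := mem_iUnion.mp hxZ
    have : n + M + 1 ≤ M := hM ⟨x, hZO n hn, hx⟩
    omega)
  have htN : (t : ℝ) ∈ interior (closure (f '' N)) := by
    have h1 : (t : ℝ) ∈ closure (f '' N) := subset_closure ⟨y, hKN hyK, hy⟩
    have h2 : (t : ℝ) ∉ frontier (closure (f '' N)) := mem_iInter₂.mp (hCR htC).1 N hNN
    rw [frontier, closure_closure] at h2
    by_contra h3
    exact h2 ⟨h1, h3⟩
  have hev : ∀ᶠ n in atTop, (u (φ n) : ℝ) ∈ closure (f '' N) :=
    hut'.eventually (mem_interior_iff_mem_nhds.mp htN)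
  obtain ⟨M', hM'⟩ := eventually_atTop.mp hev
  have h1 := hM' (M' + M + 1) (by omega)
  rw [Metric.mem_closure_iff] at h1
  obtain ⟨_, ⟨z, hzN, rfl⟩, hz⟩ := h1 (ε (M' + M + 1) / 2) (by have := hε (M' + M + 1); positivity)
  apply hNZ hzN
  refine mem_iUnion.mpr ⟨M', ?_⟩
  rw [Real.dist_eq, abs_sub_comm] at hz
  exact hz.le

theorem concl_of_sigma {X : Type} [TopologicalSpace X] [T35Space X] (Y : Set X)
    (hYi : Y.Infinite) (hY : IsOpen Y ∨ IsPreconnected Y) (𝒦 𝒩 : Set (Set X))
    (hcov : Y ⊆ ⋃₀ 𝒦) (hN : 𝒩.Countable)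
    (hbdd : ∀ K ∈ 𝒦, ∀ O : ℕ → Set X, (∀ n, IsOpen (O n)) → LocallyFinite O →
      {n | (O n ∩ K).Nonempty}.Finite)
    (hnet : ∀ K ∈ 𝒦, ∀ O : Set X, IsOpen O → K ⊆ O → ∃ N ∈ 𝒩, K ⊆ N ∧ N ⊆ O) : Concl X := by
  rcases hY with hY | hY
  · by_cases h : {U : Set X | IsClopen U}.Infinite
    · exact concl_of_infinite_clopen h
    rw [not_infinite] at h
    obtain ⟨x, hx, y, hy, hxy⟩ := exists_nontrivial_component h hYi
    obtain ⟨lam, h1, h2, h3, h4⟩ := exists_bump hY isPreconnected_connectedComponent hx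
      mem_connectedComponent hy hxy
    refine concl_of_network Y 𝒦 𝒩 hcov hN hbdd hnet lam h1 h2
      (fun r hr => (h4 r hr).imp fun z hz => hz.2) ?_
    intro r hr
    obtain ⟨z, -, hz⟩ := h4 r (Ioo_subset_Icc_self hr)
    exact ⟨z, h3 z (by rw [hz]; exact hr.1.ne'), hz⟩
  · obtain ⟨x, hx, y, hy, hxy⟩ := hYi.nontrivial
    obtain ⟨lam, h1, h2, -, h4⟩ := exists_bump isOpen_univ hY (mem_univ x) hx hy hxy
    exact concl_of_network Y 𝒦 𝒩 hcov hN hbdd hnet lam h1 h2
      (fun r hr => (h4 r hr).imp fun z hz => hz.2)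
      fun r hr => h4 r (Ioo_subset_Icc_self hr)

end Pool.Agent.Lib.MP_5ffd28_gt
end
end
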